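import Pool.Agent.H87.EBK.Stmts

/-!
Row LAB of board `ebk` (MP_93721d_nt): labels with rich edges.
-/

namespace Pool.EBK

theorem lab_rich_symm {a b : ℚ} (h : Rich a b) : Rich b a := by
  obtain ⟨⟨ha, hb, hs⟩, c, ⟨hc, h1, h2⟩, h3, h4⟩ := h
  exact ⟨⟨hb, ha, by rwa [add_comm]⟩, c, ⟨hc, h2, h1⟩, h4, h3⟩

theorem lab_bad {U : Type} [Finite U] (F : Finset ℚ) (l' : U → ℚ) (h1 : ∀ u, 0 < l' u) :
    ∃ B : Finset ℚ, ∀ c : ℚ, 0 < c → c ∉ B → ∀ u, c / l' u ∉ F ∧ l' u / c ∉ F := by
  classical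
  have := Fintype.ofFinite U
  refine ⟨(Finset.univ ×ˢ F).image (fun p : U × ℚ => p.2 * l' p.1) ∪
    (Finset.univ ×ˢ F).image (fun p : U × ℚ => l' p.1 / p.2), ?_⟩
  intro c hc hB u
  rw [Finset.mem_union, not_or] at hB
  constructor
  · intro hf
    apply hB.1
    rw [Finset.mem_image]
    exact ⟨(u, c / l' u), by simp [hf], div_mul_cancel₀ _ (h1 u).ne'⟩
  · intro hf
    apply hB.2
    rw [Finset.mem_image]
    refine ⟨(u, l' u / c), by simp [hf], ?_⟩
    have hu := (h1 u).ne'
    field_simp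

theorem lab_ext (V : Type) (G : SimpleGraph V) (F : Finset ℚ) (z : V)
    (l' : {u : V // u ≠ z} → ℚ) (h1 : ∀ u, 0 < l' u) (h2 : ∀ u w, u ≠ w → l' u / l' w ∉ F)
    (h3 : ∀ u w : {u : V // u ≠ z}, G.Adj u w → Rich (l' u) (l' w))
    (c : ℚ) (hc : 0 < c) (hF : ∀ u, c / l' u ∉ F ∧ l' u / c ∉ F)
    (hz : ∀ u : {u : V // u ≠ z}, G.Adj z u → Rich (l' u) c) :
    ∃ l : V → ℚ, (∀ u, 0 < l u) ∧ (∀ u w, u ≠ w → l u / l w ∉ F) ∧
      ∀ u w, G.Adj u w → Rich (l u) (l w) := by
  classical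
  refine ⟨fun u => if h : u = z then c else l' ⟨u, h⟩, ?_, ?_, ?_⟩
  · intro u
    dsimp only
    split_ifs with hu
    · exact hc
    · exact h1 _
  · intro u w huw
    dsimp only
    split_ifs with hu hw hw
    · exact absurd (hu.trans hw.symm) huw
    · exact (hF _).1
    · exact (hF _).2
    · exact h2 _ _ fun h => huw (congrArg Subtype.val h)
  · intro u w huw
    dsimp only
    split_ifs with hu hw hw
    · exact absurd (hu.trans hw.symm) huw.ne
    · subst hu
      exact lab_rich_symm (hz ⟨w, hw⟩ huw)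
    · subst hw
      exact hz ⟨u, hu⟩ huw.symm
    · exact h3 ⟨u, hu⟩ ⟨w, hw⟩ huw

theorem lab (hD : DEG) (hC : CTR) (hS : SUB) (hP : STP) (hV : VTX) : LAB := by
  have key : ∀ n : ℕ, ∀ (V : Type) [Finite V] (G : SimpleGraph V) (F : Finset ℚ),
      Nat.card V = n → ¬ HasK4Minor G →
      ∃ l : V → ℚ, (∀ u, 0 < l u) ∧ (∀ u w, u ≠ w → l u / l w ∉ F) ∧
        ∀ u w, G.Adj u w → Rich (l u) (l w) := by
    intro n
    induction n using Nat.strong_induction_on with
    | _ n ih =>
    intro V _ G F hn hG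
    rcases isEmpty_or_nonempty V with hE | hE
    · exact ⟨fun _ => 1, fun u => (hE.false u).elim, fun u => (hE.false u).elim,
        fun u => (hE.false u).elim⟩
    obtain ⟨z, x, y, hz⟩ := hD V G hG
    have hcard : Nat.card {u : V // u ≠ z} < n := by
      rw [← hn]
      exact Finite.card_subtype_lt (x := z) (by simp)
    by_cases hA : G.Adj z x ∧ G.Adj z y ∧ x ≠ y
    · obtain ⟨hzx, hzy, hxy⟩ := hA
      let H : SimpleGraph {u : V // u ≠ z} :=
        { Adj := fun u w => G.Adj u w ∨ (u.1 = x ∧ w.1 = y) ∨ (u.1 = y ∧ w.1 = x)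
          symm := ⟨by
            rintro u w (h | h | h)
            · exact Or.inl h.symm
            · exact Or.inr (Or.inr ⟨h.2, h.1⟩)
            · exact Or.inr (Or.inl ⟨h.2, h.1⟩)⟩
          loopless := ⟨by
            rintro u (h | h | h)
            · exact G.loopless.irrefl _ h
            · exact hxy (h.1.symm.trans h.2)
            · exact hxy (h.2.symm.trans h.1)⟩ }
      have hH : ¬ HasK4Minor H := fun h => hG (hC V G z x y H hzx hzy hxy (fun u w h => h) h)
      obtain ⟨l', h1, h2, h3⟩ := ih _ hcard _ H F rfl hH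
      obtain ⟨B, hB⟩ := lab_bad F l' h1
      have hr : Rich (l' ⟨x, hzx.ne'⟩) (l' ⟨y, hzy.ne'⟩) := h3 _ _ (Or.inr (Or.inl ⟨rfl, rfl⟩))
      obtain ⟨c, hcB, hc, hc1, hc2⟩ := hP _ _ B hr
      refine lab_ext V G F z l' h1 h2 (fun u w h => h3 u w (Or.inl h)) c hc.1
        (hB c hc.1 hcB) ?_
      intro u hu
      rcases hz u hu with h | h
      · have hu' : u = ⟨x, hzx.ne'⟩ := Subtype.ext h
        rw [hu']
        exact hc1
      · have hu' : u = ⟨y, hzy.ne'⟩ := Subtype.ext h
        rw [hu']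
        exact hc2
    · have hone : ∀ u w, G.Adj z u → G.Adj z w → u = w := by
        intro u w hu hw
        by_contra huw
        apply hA
        rcases hz u hu with h | h <;> rcases hz w hw with h' | h'
        · exact absurd (h.trans h'.symm) huw
        · subst h h'
          exact ⟨hu, hw, huw⟩
        · subst h h'
          exact ⟨hw, hu, fun h => huw h.symm⟩
        · exact absurd (h.trans h'.symm) huw
      let H : SimpleGraph {u : V // u ≠ z} := G.comap Subtype.val
      have hH : ¬ HasK4Minor H := fun h => hG (hS V G z h)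
      obtain ⟨l', h1, h2, h3⟩ := ih _ hcard _ H F rfl hH
      obtain ⟨B, hB⟩ := lab_bad F l' h1
      by_cases hN : ∃ x' : {u : V // u ≠ z}, G.Adj z x'
      · obtain ⟨x', hx'⟩ := hN
        obtain ⟨c, hcB, hc, hc1⟩ := hV (l' x') B (h1 x')
        refine lab_ext V G F z l' h1 h2 (fun u w h => h3 u w h) c hc (hB c hc hcB) ?_
        intro u hu
        have hu' : u = x' := Subtype.ext (hone _ _ hu hx')
        rw [hu']
        exact hc1
      · obtain ⟨c, hcB, hc, _⟩ := hV 1 B one_pos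
        refine lab_ext V G F z l' h1 h2 (fun u w h => h3 u w h) c hc (hB c hc hcB) ?_
        intro u hu
        exact absurd ⟨u, hu⟩ hN
  intro V _ G F hG
  exact key _ V G F rfl hG

end Pool.EBK
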